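import Pool.Agent.Helper41.LD2.Defs
import Pool.Agent.Helper34.LD.WA

/-!
# Project LD2, block PA: windows for the powers
-/

set_option autoImplicit false
set_option linter.unusedVariables false

namespace Pool.Agent.Helper5.LD2

open Set MeasureTheory Filter Topology
open Pool.Agent.Helper41.LD (av var ind haar idx)
open Pool.Agent.Helper41.LD2
open Pool.Agent.Helper34.LD (ind_nonneg ind_le_one measurable_ind measurable_haar haar_abs_le ii_of_bdd prim_haar int_ind_le)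

/-- Bonnet: second mean value inequality, for a bounded measurable function -/
theorem bonnet_meas {f g : ℝ → ℝ} {p q c B : ℝ} (hpq : p ≤ q) (hf : AntitoneOn f (Icc p q)) (hf0 : 0 ≤ f q)
    (hgm : Measurable g) (hgB : ∀ x ∈ Icc p q, |g x| ≤ B) (hc : ∀ x ∈ Icc p q, |∫ y in p..x, g y| ≤ c) :
    |∫ x in p..q, f x * g x| ≤ c * f p := by
  have hc0 : 0 ≤ c := (abs_nonneg _).trans (hc p ⟨le_rfl, hpq⟩)
  set pr : ℝ → ℝ := fun x => max p (min q x) with hpr
  have hprm : ∀ x, pr x ∈ Icc p q := fun x => ⟨le_max_left _ _, max_le hpq (min_le_left _ _)⟩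
  have hprc : Continuous pr := continuous_const.max (continuous_const.min continuous_id)
  have hprmono : Monotone pr := fun x y h => max_le_max le_rfl (min_le_min le_rfl h)
  have hpreq : ∀ x ∈ Icc p q, pr x = x := fun x hx => by
    simp only [hpr]
    rw [min_eq_right hx.2, max_eq_right hx.1]
  set F : ℝ → ℝ := fun x => f (pr x) with hF
  set G : ℝ → ℝ := fun x => g (pr x) with hG
  have hFanti : Antitone F := fun x y h => hf (hprm x) (hprm y) (hprmono h)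
  have hFmeas : Measurable F := hFanti.measurable
  have hGm : Measurable G := hgm.comp hprc.measurable
  have hFp : ∀ x, F x ≤ f p := fun x => hf ⟨le_rfl, hpq⟩ (hprm x) (hprm x).1
  have hF0 : ∀ x, 0 ≤ F x := fun x => hf0.trans (hf (hprm x) ⟨hpq, le_rfl⟩ (hprm x).2)
  have hfp0 : 0 ≤ f p := (hF0 p).trans (hFp p)
  have h1 : ∫ x in p..q, f x * g x = ∫ x in Ioc p q, F x * G x := by
    rw [intervalIntegral.integral_of_le hpq]
    refine setIntegral_congr_fun measurableSet_Ioc fun x hx => ?_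
    have hx' : x ∈ Icc p q := ⟨hx.1.le, hx.2⟩
    simp only [hF, hG, hpreq x hx']
  set idc : ℝ → ℝ → ℝ := fun x s => if s < F x then 1 else 0 with hidc
  have h2 : ∀ x, F x = ∫ s in Ioc (0 : ℝ) (f p), idc x s := by
    intro x
    have e1 : ∫ s in Ioc (0 : ℝ) (f p), idc x s = ∫ s in Ioc (0 : ℝ) (f p), (Iio (F x)).indicator (fun _ => (1 : ℝ)) s := by
      refine setIntegral_congr_fun measurableSet_Ioc fun s _ => ?_
      simp only [hidc, indicator, mem_Iio]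
    rw [e1, setIntegral_indicator measurableSet_Iio]
    have e2 : (Ioc (0 : ℝ) (f p) ∩ Iio (F x) : Set ℝ) = Ioo 0 (F x) := by
      ext s
      simp only [mem_inter_iff, mem_Ioc, mem_Iio, mem_Ioo]
      constructor
      · rintro ⟨⟨a1, _⟩, a3⟩
        exact ⟨a1, a3⟩
      · rintro ⟨a1, a2⟩
        exact ⟨⟨a1, a2.le.trans (hFp x)⟩, a2⟩
    rw [e2, setIntegral_const]
    simp [hF0 x]
  have hB : ∀ x, |G x| ≤ B := fun x => hgB _ (hprm x)
  have hmeas : Measurable (fun z : ℝ × ℝ => idc z.1 z.2 * G z.1) := by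
    refine Measurable.mul ?_ (hGm.comp measurable_fst)
    exact Measurable.ite (measurableSet_lt measurable_snd (hFmeas.comp measurable_fst)) measurable_const
      measurable_const
  have hfin1 : IsFiniteMeasure (volume.restrict (Ioc p q)) := ⟨by simp⟩
  have hfin2 : IsFiniteMeasure (volume.restrict (Ioc (0 : ℝ) (f p))) := ⟨by simp⟩
  have hint : Integrable (Function.uncurry fun x s => idc x s * G x)
      ((volume.restrict (Ioc p q)).prod (volume.restrict (Ioc (0 : ℝ) (f p)))) := by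
    refine Integrable.of_bound (C := B) hmeas.aestronglyMeasurable (Eventually.of_forall ?_)
    rintro ⟨x, s⟩
    simp only [Function.uncurry, hidc]
    split_ifs
    · simpa using hB x
    · simpa using (abs_nonneg _).trans (hB x)
  have h3 : ∫ x in Ioc p q, F x * G x = ∫ s in Ioc (0 : ℝ) (f p), ∫ x in Ioc p q, idc x s * G x := by
    rw [← integral_integral_swap hint]
    refine integral_congr_ae (Eventually.of_forall fun x => ?_)
    show F x * G x = ∫ s in Ioc (0 : ℝ) (f p), idc x s * G x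
    rw [integral_mul_const, ← h2 x]
  have h4 : ∀ s : ℝ, |∫ x in Ioc p q, idc x s * G x| ≤ c := by
    intro s
    set A : Set ℝ := {x | x ∈ Ioc p q ∧ s < F x} with hA
    have hAm : MeasurableSet A := measurableSet_Ioc.inter (measurableSet_lt measurable_const hFmeas)
    have e1 : ∫ x in Ioc p q, idc x s * G x = ∫ x in A, G x := by
      have e2 : A = Ioc p q ∩ {x | s < F x} := rfl
      rw [e2, ← setIntegral_indicator (measurableSet_lt measurable_const hFmeas)]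
      refine setIntegral_congr_fun measurableSet_Ioc fun x _ => ?_
      simp only [hidc, indicator, Set.mem_ofPred_eq]
      split_ifs <;> simp
    rw [e1]
    rcases A.eq_empty_or_nonempty with hE | hne
    · rw [hE]
      simpa using hc0
    · have hbdd : BddAbove A := ⟨q, fun x hx => hx.1.2⟩
      set y := sSup A with hy
      have hyq : y ≤ q := csSup_le hne fun x hx => hx.1.2
      obtain ⟨x0, hx0⟩ := hne
      have hyp : p ≤ y := hx0.1.1.le.trans (le_csSup hbdd hx0)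
      have hAE : A =ᵐ[volume] Ioc p y := by
        refine Filter.EventuallyLE.antisymm ?_ ?_
        · exact HasSubset.Subset.eventuallyLE fun x hx => ⟨hx.1.1, le_csSup hbdd hx⟩
        · have e3 : Ioc p y =ᵐ[volume] Ioo p y := Ioo_ae_eq_Ioc.symm
          refine e3.le.trans (HasSubset.Subset.eventuallyLE fun x hx => ?_)
          obtain ⟨z, hz, hxz⟩ := exists_lt_of_lt_csSup ⟨x0, hx0⟩ hx.2
          exact ⟨⟨hx.1, hx.2.le.trans hyq⟩, hz.2.trans_le (hFanti hxz.le)⟩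
      rw [setIntegral_congr_set hAE, ← intervalIntegral.integral_of_le hyp]
      have e4 : ∫ x in p..y, G x = ∫ x in p..y, g x := by
        refine intervalIntegral.integral_congr fun x hx => ?_
        rw [uIcc_of_le hyp] at hx
        simp only [hG, hpreq x ⟨hx.1, hx.2.trans hyq⟩]
      rw [e4]
      exact hc y ⟨hyp, hyq⟩
  rw [h1, h3]
  have h5 := norm_setIntegral_le_of_norm_le_const (μ := volume) (s := Ioc (0 : ℝ) (f p)) (C := c)
    (f := fun s => ∫ x in Ioc p q, idc x s * G x) (by simp) (fun s _ => h4 s)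
  simpa [Measure.real, Real.volume_Ioc, ENNReal.toReal_ofReal hfp0] using h5

variable {A₀ x₁ x₂ : ℝ} {c : ℕ → ℝ} {n₀ : ℕ}

theorem pw_eq {j : ℕ} (hj : n₀ ≤ j) (x : ℝ) : pw A₀ c n₀ j x = A₀ * x ^ (j + 1) + c j := by
  unfold pw
  rw [if_neg (not_lt.2 hj)]

theorem pw_meas (j : ℕ) : Measurable (pw A₀ c n₀ j) := by
  unfold pw
  by_cases h : j < n₀
  · simp only [if_pos h]
    exact measurable_const
  · simp only [if_neg h]
    exact ((measurable_id.pow_const _).const_mul A₀).add_const _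

theorem vp_pos (hA : 0 < A₀) (j : ℕ) {x : ℝ} (hx : 0 < x) : 0 < vp A₀ j x := by
  unfold vp
  positivity

theorem vp_mono (hA : 0 < A₀) (j : ℕ) {x y : ℝ} (hx : 0 < x) (hxy : x ≤ y) : vp A₀ j x ≤ vp A₀ j y := by
  unfold vp
  exact mul_le_mul_of_nonneg_left (pow_le_pow_left₀ hx.le hxy j) (by positivity)

theorem vp_meas (j : ℕ) : Measurable (vp A₀ j) := by
  unfold vp
  exact (measurable_id.pow_const _).const_mul _

theorem pw_deriv {j : ℕ} (hj : n₀ ≤ j) (x : ℝ) : HasDerivAt (pw A₀ c n₀ j) (vp A₀ j x) x := by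
  have h1 : HasDerivAt (fun x : ℝ => A₀ * x ^ (j + 1) + c j) (A₀ * (((j + 1 : ℕ) : ℝ) * x ^ j)) x :=
    ((hasDerivAt_pow (j + 1) x).const_mul A₀).add_const (c j)
  have e : pw A₀ c n₀ j = fun x : ℝ => A₀ * x ^ (j + 1) + c j := by
    funext y
    exact pw_eq hj y
  rw [e]
  convert h1 using 1
  unfold vp
  push_cast
  ring

theorem pw_strict (hA : 0 < A₀) {j : ℕ} (hj : n₀ ≤ j) : StrictMonoOn (pw A₀ c n₀ j) (Ici 0) := by
  intro x hx y hy hxy
  rw [pw_eq hj, pw_eq hj]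
  have := pow_lt_pow_left₀ hxy hx (n := j + 1) (by omega)
  nlinarith

/-- change of variables -/
theorem cov_pw (hA : 0 < A₀) {j : ℕ} (hj : n₀ ≤ j) {a b : ℝ} (ha : 0 < a) (hab : a ≤ b) (h : ℝ → ℝ) :
    ∫ x in a..b, h (pw A₀ c n₀ j x) * vp A₀ j x = ∫ y in pw A₀ c n₀ j a..pw A₀ c n₀ j b, h y := by
  have hm := pw_strict (c := c) hA hj
  have hsub : Icc a b ⊆ Ici (0 : ℝ) := fun x hx => ha.le.trans hx.1
  have hle : pw A₀ c n₀ j a ≤ pw A₀ c n₀ j b := hm.monotoneOn (hsub ⟨le_rfl, hab⟩) (hsub ⟨hab, le_rfl⟩) hab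
  have himg : pw A₀ c n₀ j '' Icc a b = Icc (pw A₀ c n₀ j a) (pw A₀ c n₀ j b) := by
    refine Subset.antisymm ?_ ?_
    · rintro _ ⟨x, hx, rfl⟩
      exact ⟨hm.monotoneOn (hsub ⟨le_rfl, hab⟩) (hsub hx) hx.1, hm.monotoneOn (hsub hx) (hsub ⟨hab, le_rfl⟩) hx.2⟩
    · exact intermediate_value_Icc hab fun x _ => (pw_deriv hj x).continuousAt.continuousWithinAt
  have h1 := integral_image_eq_integral_abs_deriv_smul (measurableSet_Icc (a := a) (b := b))
    (fun x _ => (pw_deriv (A₀ := A₀) (c := c) hj x).hasDerivWithinAt) (hm.injOn.mono hsub) h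
  rw [himg] at h1
  rw [intervalIntegral.integral_of_le hab, intervalIntegral.integral_of_le hle, ← integral_Icc_eq_integral_Ioc,
    ← integral_Icc_eq_integral_Ioc, h1]
  refine setIntegral_congr_fun measurableSet_Icc fun x hx => ?_
  show h (pw A₀ c n₀ j x) * vp A₀ j x = |vp A₀ j x| • h (pw A₀ c n₀ j x)
  rw [abs_of_pos (vp_pos hA j (ha.trans_le hx.1)), smul_eq_mul, mul_comm]

/-- second mean value theorem: one Haar function of a power on an interval -/
theorem int_haar_pw (hA : 0 < A₀) (k i : ℕ) {j : ℕ} (hj : n₀ ≤ j) {a b : ℝ} (ha : 0 < a) (hab : a ≤ b) :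
    |∫ x in a..b, haar k i (pw A₀ c n₀ j x)| ≤ (1 / 2) ^ k / vp A₀ j a := by
  have hv : ∀ x ∈ Icc a b, 0 < vp A₀ j x := fun x hx => vp_pos hA j (ha.trans_le hx.1)
  have e : ∫ x in a..b, haar k i (pw A₀ c n₀ j x) = ∫ x in a..b, (1 / vp A₀ j x) * (haar k i (pw A₀ c n₀ j x) * vp A₀ j x) := by
    refine intervalIntegral.integral_congr fun x hx => ?_
    rw [uIcc_of_le hab] at hx
    have := (hv x hx).ne'
    field_simp
  rw [e, div_eq_mul_one_div ((1 / 2 : ℝ) ^ k)]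
  refine bonnet_meas (f := fun x => 1 / vp A₀ j x) (g := fun x => haar k i (pw A₀ c n₀ j x) * vp A₀ j x) (B := vp A₀ j b)
    hab ?_ ?_ ?_ ?_ ?_
  · intro x hx y hy hxy
    exact one_div_le_one_div_of_le (hv x hx) (vp_mono hA j (ha.trans_le hx.1) hxy)
  · exact (one_div_pos.2 (hv b ⟨hab, le_rfl⟩)).le
  · exact ((measurable_haar k i).comp (pw_meas j)).mul (vp_meas j)
  · intro x hx
    rw [abs_mul, abs_of_pos (hv x hx)]
    calc |haar k i (pw A₀ c n₀ j x)| * vp A₀ j x ≤ 1 * vp A₀ j b :=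
          mul_le_mul (haar_abs_le _ _ _) (vp_mono hA j (ha.trans_le hx.1) hx.2) (hv x hx).le zero_le_one
      _ = vp A₀ j b := one_mul _
  · intro x hx
    show |∫ y in a..x, haar k i (pw A₀ c n₀ j y) * vp A₀ j y| ≤ (1 / 2) ^ k
    rw [cov_pw hA hj ha hx.1 (haar k i)]
    refine (prim_haar k i _ _).trans ?_
    rw [pow_succ]
    have : (0 : ℝ) ≤ (1 / 2) ^ k := by positivity
    linarith

/-- the length of a window is very small -/
theorem small_len {K n L r Q₀ : ℕ} {ε : ℝ} (P : PPar A₀ x₁ x₂ n₀ K n L r Q₀ ε) {a ℓ : ℝ} (ha : x₁ ≤ a)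
    (hw : PWin A₀ n a ℓ) : 0 < ℓ ∧ ((n : ℝ) + L + r + 1) ^ 2 * x₂ ^ (L + r) * 2 ^ (16 * K) * ℓ ≤ 1 / 2 := by
  have hA := P.hA
  have h1 := P.h1
  have ha0 : 0 < a := by linarith
  have hv := vp_pos hA n ha0
  have hℓ : 0 < ℓ := by
    by_contra h
    push Not at h
    have := hw.1
    nlinarith
  refine ⟨hℓ, ?_⟩
  have h2 : A₀ * x₁ ^ n ≤ vp A₀ n a := by
    unfold vp
    have h3 : x₁ ^ n ≤ a ^ n := pow_le_pow_left₀ (by linarith) ha n
    have h4 : (0 : ℝ) ≤ n := Nat.cast_nonneg n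
    have h5 : 0 ≤ A₀ * a ^ n := by positivity
    have h6 : A₀ * x₁ ^ n ≤ A₀ * a ^ n := mul_le_mul_of_nonneg_left h3 hA.le
    nlinarith
  have h3 := P.hlin
  have h4 := hw.2
  have h5 : 4 * ((n : ℝ) + L + r + 1) ^ 2 * x₂ ^ (L + r) * 2 ^ (16 * K) * ℓ ≤ 2 :=
    calc 4 * ((n : ℝ) + L + r + 1) ^ 2 * x₂ ^ (L + r) * 2 ^ (16 * K) * ℓ ≤ vp A₀ n a * ℓ :=
          mul_le_mul_of_nonneg_right (h3.trans h2) hℓ.le
      _ ≤ 2 := h4
  linarith

theorem exp_len {K n L r Q₀ : ℕ} {ε : ℝ} (P : PPar A₀ x₁ x₂ n₀ K n L r Q₀ ε) {a ℓ : ℝ} (ha : x₁ ≤ a)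
    (hw : PWin A₀ n a ℓ) : ((n : ℝ) + L + r + 1) * ℓ ≤ 1 / 1000 := by
  obtain ⟨hℓ, h1⟩ := small_len P ha hw
  have hx2 : 1 ≤ x₂ ^ (L + r) := one_le_pow₀ (by linarith [P.h1, P.h12])
  have hS : 1 ≤ (n : ℝ) + L + r + 1 := by
    have : (0 : ℝ) ≤ (n : ℝ) + L + r := by positivity
    linarith
  have h16 : (500 : ℝ) ≤ 2 ^ (16 * K) := by
    calc (500 : ℝ) ≤ 2 ^ (16 * 1) := by norm_num
      _ ≤ 2 ^ (16 * K) := pow_le_pow_right₀ (by norm_num) (Nat.mul_le_mul_left 16 P.hK)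
  set S : ℝ := (n : ℝ) + L + r + 1 with hSd
  have h2 : S * 500 * ℓ ≤ S ^ 2 * x₂ ^ (L + r) * 2 ^ (16 * K) * ℓ := by
    refine mul_le_mul_of_nonneg_right ?_ hℓ.le
    refine mul_le_mul ?_ h16 (by norm_num) (by positivity)
    nlinarith
  linarith

theorem vp_le_two {K n L r Q₀ : ℕ} {ε : ℝ} (P : PPar A₀ x₁ x₂ n₀ K n L r Q₀ ε) {a ℓ : ℝ} (ha : x₁ ≤ a)
    (hw : PWin A₀ n a ℓ) {j : ℕ} (hj : j ≤ n + L + r) {x : ℝ} (hx : x ∈ Icc a (a + ℓ)) :
    vp A₀ j x ≤ vp A₀ j a * (1 + 1 / 400) := by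
  have h1 := exp_len P ha hw
  obtain ⟨hℓ, -⟩ := small_len P ha hw
  have hA := P.hA
  have ha1 : 1 ≤ a := by linarith [P.h1]
  have hxa : 0 < x := by linarith [hx.1]
  have h2 : x ≤ a * Real.exp ℓ := by
    have := Real.add_one_le_exp ℓ
    nlinarith [hx.2]
  have h3 : x ^ j ≤ a ^ j * (1 + 1 / 400) := by
    have h4 : x ^ j ≤ (a * Real.exp ℓ) ^ j := pow_le_pow_left₀ hxa.le h2 j
    rw [mul_pow, ← Real.exp_nat_mul] at h4
    refine h4.trans (mul_le_mul_of_nonneg_left ?_ (by positivity))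
    have h5 : (j : ℝ) * ℓ ≤ 1 / 1000 := by
      have h6 : (j : ℝ) ≤ (n : ℝ) + L + r := by exact_mod_cast hj
      nlinarith
    calc Real.exp (j * ℓ) ≤ Real.exp (1 / 1000) := Real.exp_le_exp.2 h5
      _ ≤ 1 + 1 / 400 := by
          have h7 := Real.exp_bound_div_one_sub_of_interval (x := 1 / 1000) (by norm_num) (by norm_num)
          refine h7.trans ?_
          norm_num
  unfold vp
  rw [mul_assoc (A₀ * ((j : ℝ) + 1))]
  exact mul_le_mul_of_nonneg_left h3 (by positivity)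

/-- the ratio of the speeds -/
theorem vp_ratio (hA : 0 < A₀) (h1 : 1 < x₁) {a : ℝ} (ha : x₁ ≤ a) {n j : ℕ} (hj : n ≤ j) :
    vp A₀ n a * x₁ ^ (j - n) ≤ vp A₀ j a := by
  have ha0 : 0 < a := by linarith
  unfold vp
  have h2 : a ^ j = a ^ n * a ^ (j - n) := by rw [← pow_add]; congr 1; omega
  have h3 : x₁ ^ (j - n) ≤ a ^ (j - n) := pow_le_pow_left₀ (by linarith) ha _
  have h4 : (n : ℝ) + 1 ≤ j + 1 := by
    have : (n : ℝ) ≤ j := by exact_mod_cast hj
    linarith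
  rw [h2]
  calc A₀ * ((n : ℝ) + 1) * a ^ n * x₁ ^ (j - n) ≤ A₀ * ((j : ℝ) + 1) * a ^ n * a ^ (j - n) := by gcongr
    _ = A₀ * ((j : ℝ) + 1) * (a ^ n * a ^ (j - n)) := by ring

theorem pw_Wd {K n L r Q₀ : ℕ} {ε : ℝ} (P : PPar A₀ x₁ x₂ n₀ K n L r Q₀ ε) {a ℓ : ℝ} (ha : x₁ ≤ a) (hb : a + ℓ ≤ x₂)
    (hw : PWin A₀ n a ℓ) : Wd (pw A₀ c n₀) x₁ n (n + L) a ℓ := by
  obtain ⟨hℓ, -⟩ := small_len P ha hw
  have hA := P.hA
  have h1 := P.h1
  have ha0 : 0 < a := by linarith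
  have key : ∀ j : ℕ, n ≤ j → 1 / vp A₀ j a ≤ x₁⁻¹ ^ (j - n) * ℓ := by
    intro j hj
    have hv := vp_pos hA j ha0
    have hvn := vp_pos hA n ha0
    have h2 := vp_ratio hA h1 ha hj
    have hx : 0 < x₁ ^ (j - n) := pow_pos (by linarith) _
    rw [inv_pow, div_le_iff₀ hv]
    calc (1 : ℝ) ≤ vp A₀ n a * ℓ := hw.1
      _ = (x₁ ^ (j - n))⁻¹ * ℓ * (vp A₀ n a * x₁ ^ (j - n)) := by field_simp
      _ ≤ (x₁ ^ (j - n))⁻¹ * ℓ * vp A₀ j a := mul_le_mul_of_nonneg_left h2 (by positivity)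
  refine ⟨hℓ, fun j => pw_meas j, fun k i j hj => ?_, fun k i j hj hjm => ?_⟩
  · refine (int_haar_pw hA k i (P.hn₀.trans hj) ha0 (by linarith)).trans ?_
    rw [div_eq_mul_one_div, mul_assoc]
    exact mul_le_mul_of_nonneg_left (key j hj) (by positivity)
  · have hjn : n₀ ≤ j := P.hn₀.trans hj
    have hv := vp_pos hA j ha0
    have hab : a ≤ a + ℓ := by linarith
    have hpk : (0 : ℝ) < (1 / 2) ^ k := by positivity
    have hVV : pw A₀ c n₀ j (a + ℓ) - pw A₀ c n₀ j a ≤ vp A₀ j a * (1 + 1 / 400) * ℓ := by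
      have h3 := cov_pw (A₀ := A₀) (c := c) (n₀ := n₀) hA hjn ha0 hab (fun _ => 1)
      rw [intervalIntegral.integral_const, smul_eq_mul, mul_one] at h3
      rw [← h3]
      have h4 : ∫ x in a..a + ℓ, (fun _ : ℝ => (1 : ℝ)) (pw A₀ c n₀ j x) * vp A₀ j x ≤ ∫ x in a..a + ℓ, vp A₀ j a * (1 + 1 / 400) := by
        refine intervalIntegral.integral_mono_on hab ?_ intervalIntegrable_const fun x hx => ?_
        · simp only [one_mul]
          refine Continuous.intervalIntegrable ?_ _ _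
          unfold vp
          fun_prop
        · rw [one_mul]
          exact vp_le_two P ha hw (by omega) hx
      refine h4.trans (le_of_eq ?_)
      rw [intervalIntegral.integral_const, smul_eq_mul]
      ring
    have hVle : pw A₀ c n₀ j a ≤ pw A₀ c n₀ j (a + ℓ) :=
      (pw_strict (c := c) hA hjn).monotoneOn (show (0 : ℝ) ≤ a by linarith) (show (0 : ℝ) ≤ a + ℓ by linarith) hab
    have h5 : vp A₀ j a * ∫ x in a..(a + ℓ), ind k i (pw A₀ c n₀ j x) ≤ ∫ x in a..(a + ℓ), ind k i (pw A₀ c n₀ j x) * vp A₀ j x := by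
      rw [← intervalIntegral.integral_const_mul]
      refine intervalIntegral.integral_mono_on hab ?_ ?_ fun x hx => ?_
      · refine ii_of_bdd (C := vp A₀ j a) (((measurable_ind k i).comp (pw_meas j)).const_mul _) (fun x => ?_) _ _
        show |vp A₀ j a * ind k i (pw A₀ c n₀ j x)| ≤ vp A₀ j a
        rw [abs_mul, abs_of_pos hv, abs_of_nonneg (ind_nonneg _ _ _)]
        exact mul_le_of_le_one_right hv.le (ind_le_one _ _ _)
      · have h6 : IntervalIntegrable (fun x => vp A₀ j x * ind k i (pw A₀ c n₀ j x)) volume a (a + ℓ) := by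
          refine IntervalIntegrable.continuousOn_mul ?_ ?_
          · refine ii_of_bdd (C := 1) ((measurable_ind k i).comp (pw_meas j)) (fun x => ?_) _ _
            rw [Function.comp_apply, abs_of_nonneg (ind_nonneg _ _ _)]
            exact ind_le_one _ _ _
          · refine Continuous.continuousOn ?_
            unfold vp
            fun_prop
        refine h6.congr fun x _ => ?_
        exact mul_comm _ _
      · rw [mul_comm]
        exact mul_le_mul_of_nonneg_left (vp_mono hA j ha0 hx.1) (ind_nonneg _ _ _)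
    rw [cov_pw hA hjn ha0 hab (ind k i)] at h5
    have h6 := int_ind_le (α := 1) one_pos k i 0 (pw A₀ c n₀ j a) (pw A₀ c n₀ j (a + ℓ)) hVle
    simp only [one_mul, add_zero, div_one] at h6
    have h7 := key j hj
    have h8 : 1 / vp A₀ j a ≤ ℓ := by
      refine h7.trans (mul_le_of_le_one_left hℓ.le ?_)
      exact pow_le_one₀ (inv_nonneg.2 (by linarith)) (inv_le_one_of_one_le₀ h1.le)
    have h9 : 1 ≤ vp A₀ j a * ℓ := by
      rw [div_le_iff₀ hv] at h8
      linarith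
    have h10 : vp A₀ j a * (∫ x in a..(a + ℓ), ind k i (pw A₀ c n₀ j x)) ≤ vp A₀ j a * (4 * (1 / 2) ^ k * ℓ) := by
      refine (h5.trans h6).trans ?_
      calc (pw A₀ c n₀ j (a + ℓ) - pw A₀ c n₀ j a + 1) * (1 / 2) ^ k ≤
            (vp A₀ j a * (1 + 1 / 400) * ℓ + vp A₀ j a * ℓ) * (1 / 2) ^ k := by
            refine mul_le_mul_of_nonneg_right ?_ hpk.le
            linarith
        _ ≤ vp A₀ j a * (4 * (1 / 2) ^ k * ℓ) := by
            have : 0 ≤ vp A₀ j a * ℓ * (1 / 2) ^ k := by positivity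
            nlinarith
    exact le_of_mul_le_mul_left h10 hv

/-- the children -/
theorem pw_children {K n L r Q₀ : ℕ} {ε : ℝ} (P : PPar A₀ x₁ x₂ n₀ K n L r Q₀ ε) {a ℓ : ℝ} (ha : x₁ ≤ a) (hb : a + ℓ ≤ x₂)
    (hw : PWin A₀ n a ℓ) : x₁ ^ L / 2 ≤ (⌊vp A₀ (n + L) a * ℓ⌋₊ : ℝ) ∧ (⌊vp A₀ (n + L) a * ℓ⌋₊ : ℝ) ≤ 2 * (n + L + 1) * x₂ ^ L ∧
      ∀ b < ⌊vp A₀ (n + L) a * ℓ⌋₊,
        PWin A₀ (n + L) (a + b * (ℓ / (⌊vp A₀ (n + L) a * ℓ⌋₊ : ℝ))) (ℓ / (⌊vp A₀ (n + L) a * ℓ⌋₊ : ℝ)) ∧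
        x₁ ≤ a + b * (ℓ / (⌊vp A₀ (n + L) a * ℓ⌋₊ : ℝ)) ∧
        a + b * (ℓ / (⌊vp A₀ (n + L) a * ℓ⌋₊ : ℝ)) + ℓ / (⌊vp A₀ (n + L) a * ℓ⌋₊ : ℝ) ≤ x₂ := by
  obtain ⟨hℓ, -⟩ := small_len P ha hw
  have hA := P.hA
  have h1 := P.h1
  have ha0 : 0 < a := by linarith
  have hvn := vp_pos hA n ha0
  have hvL := vp_pos hA (n + L) ha0
  have h2 := vp_ratio hA h1 ha (show n ≤ n + L by omega)
  rw [Nat.add_sub_cancel_left] at h2
  set y : ℝ := vp A₀ (n + L) a * ℓ with hy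
  have hxL : 0 < x₁ ^ L := pow_pos (by linarith) _
  have hy1 : x₁ ^ L ≤ y := by
    calc x₁ ^ L = x₁ ^ L * 1 := (mul_one _).symm
      _ ≤ x₁ ^ L * (vp A₀ n a * ℓ) := mul_le_mul_of_nonneg_left hw.1 hxL.le
      _ = vp A₀ n a * x₁ ^ L * ℓ := by ring
      _ ≤ vp A₀ (n + L) a * ℓ := mul_le_mul_of_nonneg_right h2 hℓ.le
  have hbig : (4096 : ℝ) ≤ x₁ ^ L := by
    have h3 : x₁ ^ r ≤ x₁ ^ L := pow_le_pow_right₀ h1.le (by have := P.hL; omega)
    have h4 : (2 : ℝ) ^ (12 * 1) ≤ 2 ^ (12 * K) := pow_le_pow_right₀ (by norm_num) (Nat.mul_le_mul_left 12 P.hK)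
    have h5 := P.hr
    norm_num at h4
    linarith
  set B : ℕ := ⌊y⌋₊ with hB
  have hB1 : (B : ℝ) ≤ y := Nat.floor_le (by linarith)
  have hB2 : y < B + 1 := Nat.lt_floor_add_one y
  have hB3 : (4095 : ℝ) ≤ B := by linarith
  have hB0 : (0 : ℝ) < B := by linarith
  refine ⟨by linarith, ?_, fun b hbB => ?_⟩
  · refine hB1.trans ?_
    have h3 := hw.2
    have hx2 : a ≤ x₂ := by linarith
    have e : y = ((n : ℝ) + L + 1) * a ^ L * (A₀ * a ^ n * ℓ) := by
      rw [hy]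
      unfold vp
      rw [pow_add]
      push_cast
      ring
    have h4 : A₀ * a ^ n * ℓ ≤ 2 := by
      refine le_trans ?_ h3
      unfold vp
      have h5 : 0 ≤ A₀ * a ^ n * ℓ := by positivity
      have h6 : (0 : ℝ) ≤ n := Nat.cast_nonneg n
      nlinarith
    have h5 : a ^ L ≤ x₂ ^ L := pow_le_pow_left₀ ha0.le hx2 L
    have hx2p : 0 < x₂ := lt_of_lt_of_le ha0 hx2
    rw [e]
    calc ((n : ℝ) + L + 1) * a ^ L * (A₀ * a ^ n * ℓ) ≤ ((n : ℝ) + L + 1) * x₂ ^ L * 2 := by gcongr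
      _ = 2 * (n + L + 1) * x₂ ^ L := by ring
  · have hbr : ((b : ℝ) + 1) ≤ B := by exact_mod_cast hbB
    have hb0 : (0 : ℝ) ≤ b := Nat.cast_nonneg b
    have hq : 0 < ℓ / (B : ℝ) := by positivity
    have hbl : (b : ℝ) * (ℓ / B) + ℓ / B ≤ ℓ := by
      calc (b : ℝ) * (ℓ / B) + ℓ / B = ((b : ℝ) + 1) * (ℓ / B) := by ring
        _ ≤ B * (ℓ / B) := mul_le_mul_of_nonneg_right hbr hq.le
        _ = ℓ := by field_simp
    have hmem : a + b * (ℓ / B) ∈ Icc a (a + ℓ) := by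
      constructor
      · have : 0 ≤ (b : ℝ) * (ℓ / B) := by positivity
        linarith
      · linarith
    refine ⟨⟨?_, ?_⟩, by linarith [hmem.1], by linarith⟩
    · have h3 := vp_mono hA (n + L) ha0 hmem.1
      calc (1 : ℝ) ≤ y / B := by rw [le_div_iff₀ hB0]; linarith
        _ = vp A₀ (n + L) a * (ℓ / B) := by rw [hy]; ring
        _ ≤ vp A₀ (n + L) (a + b * (ℓ / B)) * (ℓ / B) := mul_le_mul_of_nonneg_right h3 hq.le
    · have h3 := vp_le_two P ha hw (j := n + L) (by omega) hmem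
      have h4 : vp A₀ (n + L) a * (ℓ / B) ≤ 1 + 1 / 4095 := by
        have e : vp A₀ (n + L) a * (ℓ / B) = y / B := by rw [hy]; ring
        rw [e, div_le_iff₀ hB0]
        linarith
      calc vp A₀ (n + L) (a + b * (ℓ / B)) * (ℓ / B) ≤ vp A₀ (n + L) a * (1 + 1 / 400) * (ℓ / B) :=
            mul_le_mul_of_nonneg_right h3 hq.le
        _ = (vp A₀ (n + L) a * (ℓ / B)) * (1 + 1 / 400) := by ring
        _ ≤ (1 + 1 / 4095) * (1 + 1 / 400) := mul_le_mul_of_nonneg_right h4 (by norm_num)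
        _ ≤ 2 := by norm_num

end Pool.Agent.Helper5.LD2
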